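import Pool.Agent.Helper79.DM.Defs

/-!
# Block G: different degrees

The part which does not depend on the construction of the places.
-/

set_option autoImplicit false

namespace Pool.Agent.Helper79.DM

open Polynomial

/-- An infinite forward orbit has no repetition. -/
theorem iter_injective {α : Type*} (T : α → α) (x : α)
    (h : ¬ (Set.range fun n : ℕ => T^[n] x).Finite) :
    Function.Injective fun n : ℕ => T^[n] x := by
  have key : ∀ i j : ℕ, i < j → T^[i] x ≠ T^[j] x := by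
    intro i j hij he
    apply h
    refine ((Set.finite_Iio j).image fun n : ℕ => T^[n] x).subset ?_
    rintro _ ⟨n, rfl⟩
    induction n using Nat.strong_induction_on with
    | _ n ih =>
      by_cases hn : n < j
      · exact ⟨n, hn, rfl⟩
      · obtain ⟨k, rfl⟩ := Nat.exists_eq_add_of_le (not_lt.1 hn)
        have h1 : T^[j + k] x = T^[i + k] x := by
          rw [Nat.add_comm j k, Function.iterate_add_apply, ← he,
            ← Function.iterate_add_apply, Nat.add_comm k i]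
        have h2 := ih (i + k) (by omega)
        simpa only [h1] using h2
  intro i j hij
  rcases lt_trichotomy i j with h1 | h1 | h1
  · exact absurd hij (key i j h1)
  · exact h1
  · exact absurd hij.symm (key j i h1)

section Norm
variable {L : Type*} [NormedField L] [IsUltrametricDist L]

omit [IsUltrametricDist L] in
/-- Upper bound for the values of a polynomial. -/
theorem norm_eval_le (F : L[X]) (d : ℕ) (hd : F.natDegree ≤ d) :
    ∃ C : ℝ, 1 ≤ C ∧ ∀ z : L, ‖F.eval z‖ ≤ C * max 1 ‖z‖ ^ d := by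
  refine ⟨1 + ∑ i ∈ Finset.range (d + 1), ‖F.coeff i‖, ?_, ?_⟩
  · have : 0 ≤ ∑ i ∈ Finset.range (d + 1), ‖F.coeff i‖ :=
      Finset.sum_nonneg fun i _ => norm_nonneg _
    linarith
  · intro z
    have hm : (1 : ℝ) ≤ max 1 ‖z‖ := le_max_left _ _
    rw [Polynomial.eval_eq_sum_range' (n := d + 1) (by omega)]
    have h1 : ∀ i ∈ Finset.range (d + 1), ‖F.coeff i * z ^ i‖ ≤ ‖F.coeff i‖ * max 1 ‖z‖ ^ d := by
      intro i hi
      rw [norm_mul, norm_pow]
      refine mul_le_mul_of_nonneg_left ?_ (norm_nonneg _)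
      calc ‖z‖ ^ i ≤ max 1 ‖z‖ ^ i := pow_le_pow_left₀ (norm_nonneg _) (le_max_right _ _) i
        _ ≤ max 1 ‖z‖ ^ d := pow_le_pow_right₀ hm (by
            have := Finset.mem_range.1 hi; omega)
    calc ‖∑ i ∈ Finset.range (d + 1), F.coeff i * z ^ i‖
        ≤ ∑ i ∈ Finset.range (d + 1), ‖F.coeff i * z ^ i‖ := norm_sum_le _ _
      _ ≤ ∑ i ∈ Finset.range (d + 1), ‖F.coeff i‖ * max 1 ‖z‖ ^ d := Finset.sum_le_sum h1
      _ = (∑ i ∈ Finset.range (d + 1), ‖F.coeff i‖) * max 1 ‖z‖ ^ d := by rw [Finset.sum_mul]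
      _ ≤ (1 + ∑ i ∈ Finset.range (d + 1), ‖F.coeff i‖) * max 1 ‖z‖ ^ d := by
          refine mul_le_mul_of_nonneg_right (by linarith) (by positivity)

omit [IsUltrametricDist L] in
/-- Upper growth of orbits. -/
theorem orbit_upper (F : L[X]) (d : ℕ) (hd : F.natDegree ≤ d) (h1 : 1 ≤ d) (z : ℕ → L)
    (hz : ∀ n, z (n + 1) = F.eval (z n)) :
    ∃ B : ℝ, 1 ≤ B ∧ ∀ n, ‖z n‖ ≤ B ^ ((n + 1) * d ^ n) := by
  obtain ⟨C, hC, hF⟩ := norm_eval_le F d hd
  have hm : ∀ n, (1 : ℝ) ≤ max 1 ‖z n‖ := fun n => le_max_left _ _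
  have hB : (1 : ℝ) ≤ C * max 1 ‖z 0‖ := by
    have := mul_le_mul hC (hm 0) (by norm_num) (by linarith)
    linarith
  refine ⟨C * max 1 ‖z 0‖, hB, ?_⟩
  have key : ∀ n, max 1 ‖z n‖ ≤ (C * max 1 ‖z 0‖) ^ ((n + 1) * d ^ n) := by
    intro n
    induction n with
    | zero =>
      simp only [Nat.zero_add, pow_zero, mul_one, pow_one]
      have := mul_le_mul_of_nonneg_right hC (le_trans zero_le_one (hm 0))
      linarith
    | succ n ih =>
      have h2 : ‖z (n + 1)‖ ≤ C * max 1 ‖z n‖ ^ d := by rw [hz]; exact hF _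
      have h3 : (1 : ℝ) ≤ C * max 1 ‖z n‖ ^ d := by
        have := mul_le_mul hC (one_le_pow₀ (hm n) (n := d)) (by norm_num) (by linarith)
        linarith
      have h4 : C ≤ C * max 1 ‖z 0‖ := le_mul_of_one_le_right (by linarith) (hm 0)
      calc max 1 ‖z (n + 1)‖ ≤ C * max 1 ‖z n‖ ^ d := max_le h3 h2
        _ ≤ (C * max 1 ‖z 0‖) * ((C * max 1 ‖z 0‖) ^ ((n + 1) * d ^ n)) ^ d :=
            mul_le_mul h4 (pow_le_pow_left₀ (by linarith [hm n]) ih d) (by positivity)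
              (by linarith)
        _ = (C * max 1 ‖z 0‖) ^ (1 + (n + 1) * d ^ n * d) := by
            rw [pow_add, pow_one, ← pow_mul]
        _ ≤ (C * max 1 ‖z 0‖) ^ ((n + 1 + 1) * d ^ (n + 1)) := by
            apply pow_le_pow_right₀ hB
            have : 1 ≤ d ^ (n + 1) := Nat.one_le_pow _ _ h1
            calc 1 + (n + 1) * d ^ n * d = 1 + (n + 1) * d ^ (n + 1) := by rw [pow_succ]; ring
              _ ≤ d ^ (n + 1) + (n + 1) * d ^ (n + 1) := by omega
              _ = (n + 1 + 1) * d ^ (n + 1) := by ring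
  intro n
  exact (le_max_right _ _).trans (key n)

/-- Near infinity the leading term of a polynomial dominates. -/
theorem norm_eval_ge (F : L[X]) (hF : 1 ≤ F.natDegree) :
    ∃ R : ℝ, 1 ≤ R ∧ ∀ z : L, R < ‖z‖ → ‖F.leadingCoeff‖ * ‖z‖ ^ F.natDegree ≤ ‖F.eval z‖ := by
  have ha : 0 < ‖F.leadingCoeff‖ := by
    rw [norm_pos_iff]
    intro h
    rw [Polynomial.leadingCoeff_eq_zero] at h
    rw [h] at hF
    simp at hF
  obtain ⟨C, hC, hT⟩ := norm_eval_le F.eraseLead (F.natDegree - 1)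
    F.eraseLead_natDegree_le
  refine ⟨max 1 (C / ‖F.leadingCoeff‖), le_max_left _ _, ?_⟩
  intro z hz
  have hz1 : 1 < ‖z‖ := lt_of_le_of_lt (le_max_left _ _) hz
  have hz2 : C / ‖F.leadingCoeff‖ < ‖z‖ := lt_of_le_of_lt (le_max_right _ _) hz
  have h1 : F.eval z = F.eraseLead.eval z + F.leadingCoeff * z ^ F.natDegree := by
    have h := congrArg (Polynomial.eval z) F.eraseLead_add_C_mul_X_pow
    rw [eval_add, eval_mul, eval_C, eval_pow, eval_X] at h
    exact h.symm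
  have h2 : ‖F.eraseLead.eval z‖ < ‖F.leadingCoeff * z ^ F.natDegree‖ := by
    have h3 := hT z
    rw [max_eq_right hz1.le] at h3
    rw [norm_mul, norm_pow]
    have h4 : C < ‖F.leadingCoeff‖ * ‖z‖ := by
      rw [div_lt_iff₀ ha] at hz2
      linarith
    calc ‖F.eraseLead.eval z‖ ≤ C * ‖z‖ ^ (F.natDegree - 1) := h3
      _ < ‖F.leadingCoeff‖ * ‖z‖ * ‖z‖ ^ (F.natDegree - 1) :=
          mul_lt_mul_of_pos_right h4 (by positivity)
      _ = ‖F.leadingCoeff‖ * ‖z‖ ^ F.natDegree := by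
          rw [mul_assoc, ← pow_succ', Nat.sub_add_cancel hF]
  have h5 : ‖F.eval z‖ = ‖F.leadingCoeff * z ^ F.natDegree‖ := by
    rw [h1]
    rw [IsUltrametricDist.norm_add_eq_max_of_norm_ne_norm h2.ne]
    exact max_eq_right h2.le
  rw [h5, norm_mul, norm_pow]

/-- Lower growth of an unbounded orbit. -/
theorem orbit_lower (F : L[X]) (hd : 2 ≤ F.natDegree) (z : ℕ → L)
    (hz : ∀ n, z (n + 1) = F.eval (z n)) (hu : ∀ M : ℝ, ∃ n, M < ‖z n‖) :
    ∃ n₀ : ℕ, ∀ k, (2 : ℝ) ^ F.natDegree ^ k ≤ ‖z (n₀ + k)‖ := by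
  obtain ⟨R, hR, hF⟩ := norm_eval_ge F (by omega)
  have ha : 0 < ‖F.leadingCoeff‖ := by
    rw [norm_pos_iff]
    intro h
    rw [Polynomial.leadingCoeff_eq_zero] at h
    rw [h] at hd
    simp at hd
  obtain ⟨α, hα0, hα1, hα2⟩ : ∃ α : ℝ, 0 < α ∧ α ≤ 1 ∧ α ≤ ‖F.leadingCoeff‖ :=
    ⟨min 1 ‖F.leadingCoeff‖, lt_min one_pos ha, min_le_left _ _, min_le_right _ _⟩
  obtain ⟨n₀, hn₀⟩ := hu (max R (2 / α))
  have h1 : R < ‖z n₀‖ := lt_of_le_of_lt (le_max_left _ _) hn₀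
  have h2 : 2 < α * ‖z n₀‖ := by
    have := lt_of_le_of_lt (le_max_right _ _) hn₀
    rw [div_lt_iff₀ hα0] at this
    linarith
  have key : ∀ k, ‖z n₀‖ ≤ ‖z (n₀ + k)‖ ∧ (2 : ℝ) ^ F.natDegree ^ k ≤ α * ‖z (n₀ + k)‖ := by
    intro k
    induction k with
    | zero => exact ⟨le_rfl, by simpa using h2.le⟩
    | succ k ih =>
      obtain ⟨ih1, ih2⟩ := ih
      have h3 : ‖F.leadingCoeff‖ * ‖z (n₀ + k)‖ ^ F.natDegree ≤ ‖z (n₀ + (k + 1))‖ := by
        rw [← Nat.add_assoc, hz]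
        exact hF _ (lt_of_lt_of_le h1 ih1)
      have hpos : 0 ≤ α * ‖z (n₀ + k)‖ := by positivity
      have h4 : (α * ‖z (n₀ + k)‖) ^ F.natDegree ≤ α * ‖z (n₀ + (k + 1))‖ := by
        calc (α * ‖z (n₀ + k)‖) ^ F.natDegree
            = α ^ F.natDegree * ‖z (n₀ + k)‖ ^ F.natDegree := by rw [mul_pow]
          _ ≤ α ^ 2 * ‖z (n₀ + k)‖ ^ F.natDegree :=
              mul_le_mul_of_nonneg_right (pow_le_pow_of_le_one hα0.le hα1 hd) (by positivity)
          _ = α * (α * ‖z (n₀ + k)‖ ^ F.natDegree) := by ring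
          _ ≤ α * (‖F.leadingCoeff‖ * ‖z (n₀ + k)‖ ^ F.natDegree) := by
              refine mul_le_mul_of_nonneg_left ?_ hα0.le
              exact mul_le_mul_of_nonneg_right hα2 (by positivity)
          _ ≤ α * ‖z (n₀ + (k + 1))‖ := mul_le_mul_of_nonneg_left h3 hα0.le
      have h5 : (2 : ℝ) ^ F.natDegree ^ (k + 1) ≤ α * ‖z (n₀ + (k + 1))‖ := by
        calc (2 : ℝ) ^ F.natDegree ^ (k + 1) = ((2 : ℝ) ^ F.natDegree ^ k) ^ F.natDegree := by
              rw [← pow_mul, pow_succ]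
          _ ≤ (α * ‖z (n₀ + k)‖) ^ F.natDegree := pow_le_pow_left₀ (by positivity) ih2 _
          _ ≤ _ := h4
      refine ⟨?_, h5⟩
      -- the norm does not decrease
      have h6 : α * ‖z (n₀ + k)‖ ≤ (α * ‖z (n₀ + k)‖) ^ F.natDegree := by
        have h7 : 1 ≤ α * ‖z (n₀ + k)‖ := by
          have : (1 : ℝ) ≤ (2 : ℝ) ^ F.natDegree ^ k := one_le_pow₀ (by norm_num)
          linarith
        exact le_self_pow₀ h7 (by omega)
      have h8 : α * ‖z (n₀ + k)‖ ≤ α * ‖z (n₀ + (k + 1))‖ := h6.trans h4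
      exact ih1.trans (le_of_mul_le_mul_left h8 hα0)
  refine ⟨n₀, fun k => (key k).2.trans ?_⟩
  calc α * ‖z (n₀ + k)‖ ≤ 1 * ‖z (n₀ + k)‖ := mul_le_mul_of_nonneg_right hα1 (norm_nonneg _)
    _ = ‖z (n₀ + k)‖ := one_mul _

end Norm

/-- Comparison of the two growth rates. -/
theorem growth_compare (a b : ℕ) (hab : b < a) (hb : 1 ≤ b) (κ : ℝ) (n₀ : ℕ) :
    ∃ k₀ : ℕ, ∀ k, k₀ ≤ k → κ * ((n₀ + k + 1) * (b : ℝ) ^ (n₀ + k)) < (a : ℝ) ^ k := by
  have hb0 : (0 : ℝ) < b := by exact_mod_cast hb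
  have ha0 : (0 : ℝ) < a := by
    have : 0 < a := by omega
    exact_mod_cast this
  have hr0 : (0 : ℝ) ≤ (b : ℝ) / a := by positivity
  have hr1 : (b : ℝ) / a < 1 := by
    rw [div_lt_one ha0]; exact_mod_cast hab
  have t1 : Filter.Tendsto (fun k : ℕ => (k : ℝ) * ((b : ℝ) / a) ^ k) Filter.atTop (nhds 0) :=
    tendsto_self_mul_const_pow_of_lt_one hr0 hr1
  have t2 : Filter.Tendsto (fun k : ℕ => ((b : ℝ) / a) ^ k) Filter.atTop (nhds 0) :=
    tendsto_pow_atTop_nhds_zero_of_lt_one hr0 hr1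
  have t3 : Filter.Tendsto (fun k : ℕ => κ * (b : ℝ) ^ n₀ * ((k : ℝ) * ((b : ℝ) / a) ^ k +
      ((n₀ : ℝ) + 1) * ((b : ℝ) / a) ^ k)) Filter.atTop (nhds 0) := by
    have := (t1.add (t2.const_mul ((n₀ : ℝ) + 1))).const_mul (κ * (b : ℝ) ^ n₀)
    simpa using this
  obtain ⟨k₀, hk₀⟩ := Filter.eventually_atTop.1 (t3.eventually (gt_mem_nhds one_pos))
  refine ⟨k₀, fun k hk => ?_⟩
  have h := hk₀ k hk
  have hak : (0 : ℝ) < (a : ℝ) ^ k := by positivity
  have e : κ * ((n₀ + k + 1) * (b : ℝ) ^ (n₀ + k)) =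
      (κ * (b : ℝ) ^ n₀ * ((k : ℝ) * ((b : ℝ) / a) ^ k +
      ((n₀ : ℝ) + 1) * ((b : ℝ) / a) ^ k)) * (a : ℝ) ^ k := by
    rw [div_pow, pow_add]
    field_simp
    ring
  rw [e]
  calc _ < 1 * (a : ℝ) ^ k := mul_lt_mul_of_pos_right h hak
    _ = (a : ℝ) ^ k := one_mul _

/-- The leading coefficient (a polynomial in the second variable) with respect to the first
variable. -/
noncomputable def leadY {A : Type*} [CommRing A] (h : MvPolynomial (Fin 2) A) : A[X] :=
  ∑ m ∈ h.support with m 0 = h.support.sup (fun m => m 0), Polynomial.C (h.coeff m) * X ^ (m 1)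

theorem leadY_ne_zero {A : Type*} [CommRing A] {h : MvPolynomial (Fin 2) A} (h0 : h ≠ 0) :
    leadY h ≠ 0 := by
  have hne : h.support.Nonempty := by
    rw [Finset.nonempty_iff_ne_empty, Ne, MvPolynomial.support_eq_empty]
    exact h0
  obtain ⟨m₀, hm₀, hD⟩ := Finset.exists_mem_eq_sup h.support hne (fun m => m 0)
  intro hz
  have hc := congrArg (fun q : A[X] => q.coeff (m₀ 1)) hz
  simp only [leadY, Polynomial.finsetSum_coeff, Polynomial.coeff_C_mul, Polynomial.coeff_X_pow,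
    Polynomial.coeff_zero] at hc
  rw [Finset.sum_eq_single m₀] at hc
  · simp only [if_true, mul_one] at hc
    exact (MvPolynomial.mem_support_iff.1 hm₀) hc
  · intro m hm hne'
    rw [Finset.mem_filter] at hm
    rw [if_neg, mul_zero]
    intro he
    apply hne'
    refine Finsupp.ext fun i => ?_
    fin_cases i
    · exact hm.2.trans hD
    · exact he.symm
  · intro hn
    exact absurd (Finset.mem_filter.2 ⟨hm₀, hD.symm⟩) hn

theorem eval_split {A : Type*} [CommRing A] (h : MvPolynomial (Fin 2) A) (x y : A) :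
    MvPolynomial.eval ![x, y] h = x ^ (h.support.sup fun m => m 0) * (leadY h).eval y +
      ∑ m ∈ h.support with ¬ m 0 = h.support.sup (fun m => m 0),
        h.coeff m * (x ^ (m 0) * y ^ (m 1)) := by
  rw [MvPolynomial.eval_eq']
  simp only [Fin.prod_univ_two, Matrix.cons_val_zero, Matrix.cons_val_one]
  rw [← Finset.sum_filter_add_sum_filter_not h.support
    (fun m => m 0 = h.support.sup (fun m => m 0))]
  congr 1
  rw [leadY, Polynomial.eval_finsetSum, Finset.mul_sum]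
  refine Finset.sum_congr rfl fun m hm => ?_
  rw [(Finset.mem_filter.1 hm).2, eval_mul, eval_C, eval_pow, eval_X]
  ring

theorem norm_leadY_le {A L : Type*} [CommRing A] [NormedField L] (σ : A →+* L)
    (h : MvPolynomial (Fin 2) A) (y : A) (Y : ℝ) (hY : 1 ≤ Y) (hy : ‖σ y‖ ≤ Y) :
    ‖σ ((leadY h).eval y)‖ ≤
      (∑ m ∈ h.support, ‖σ (h.coeff m)‖) * Y ^ (h.support.sup fun m => m 1) := by
  rw [leadY, Polynomial.eval_finsetSum, map_sum]
  calc ‖∑ m ∈ h.support with m 0 = h.support.sup (fun m => m 0),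
        σ ((Polynomial.C (h.coeff m) * X ^ (m 1)).eval y)‖
      ≤ ∑ m ∈ h.support with m 0 = h.support.sup (fun m => m 0),
        ‖σ ((Polynomial.C (h.coeff m) * X ^ (m 1)).eval y)‖ := norm_sum_le _ _
    _ ≤ ∑ m ∈ h.support, ‖σ ((Polynomial.C (h.coeff m) * X ^ (m 1)).eval y)‖ :=
        Finset.sum_le_sum_of_subset_of_nonneg (Finset.filter_subset _ _)
          fun _ _ _ => norm_nonneg _
    _ ≤ ∑ m ∈ h.support, ‖σ (h.coeff m)‖ * Y ^ (h.support.sup fun m => m 1) := by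
        refine Finset.sum_le_sum fun m hm => ?_
        rw [eval_mul, eval_C, eval_pow, eval_X, map_mul, map_pow, norm_mul, norm_pow]
        refine mul_le_mul_of_nonneg_left ?_ (norm_nonneg _)
        exact (pow_le_pow_left₀ (norm_nonneg _) hy _).trans
          (pow_le_pow_right₀ hY (Finset.le_sup (f := fun m : Fin 2 →₀ ℕ => m 1) hm))
    _ = _ := by rw [Finset.sum_mul]

/-- The bound for the leading coefficient at a point of the curve. -/
theorem norm_leadY_le_of_zero {A L : Type*} [CommRing A] [NormedField L] (σ : A →+* L)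
    (h : MvPolynomial (Fin 2) A) (x y : A) (Y : ℝ) (hY : 1 ≤ Y) (hy : ‖σ y‖ ≤ Y)
    (hx : 1 ≤ ‖σ x‖) (hz : MvPolynomial.eval ![x, y] h = 0) :
    ‖σ x‖ * ‖σ ((leadY h).eval y)‖ ≤
      (∑ m ∈ h.support, ‖σ (h.coeff m)‖) * Y ^ (h.support.sup fun m => m 1) := by
  have hxp : 0 < ‖σ x‖ := by linarith
  rw [eval_split] at hz
  have h1 : σ x ^ (h.support.sup fun m => m 0) * σ ((leadY h).eval y) =
      -∑ m ∈ h.support with ¬ m 0 = h.support.sup (fun m => m 0),
        σ (h.coeff m) * (σ x ^ (m 0) * σ y ^ (m 1)) := by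
    have h2 := congrArg σ hz
    simp only [map_add, map_mul, map_pow, map_sum, map_zero] at h2
    exact eq_neg_of_add_eq_zero_left h2
  have h3 : ‖σ x‖ ^ (h.support.sup fun m => m 0) * ‖σ ((leadY h).eval y)‖ ≤
      ∑ m ∈ h.support with ¬ m 0 = h.support.sup (fun m => m 0),
        ‖σ (h.coeff m)‖ * (‖σ x‖ ^ (m 0) * ‖σ y‖ ^ (m 1)) := by
    have h4 := congrArg norm h1
    rw [norm_mul, norm_pow, norm_neg] at h4
    rw [h4]
    refine (norm_sum_le _ _).trans (le_of_eq ?_)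
    refine Finset.sum_congr rfl fun m _ => ?_
    rw [norm_mul, norm_mul, norm_pow, norm_pow]
  have h5 : ‖σ x‖ * (‖σ x‖ ^ (h.support.sup fun m => m 0) * ‖σ ((leadY h).eval y)‖) ≤
      ‖σ x‖ ^ (h.support.sup fun m => m 0) *
        ((∑ m ∈ h.support, ‖σ (h.coeff m)‖) * Y ^ (h.support.sup fun m => m 1)) := by
    calc ‖σ x‖ * (‖σ x‖ ^ (h.support.sup fun m => m 0) * ‖σ ((leadY h).eval y)‖)
        ≤ ‖σ x‖ * ∑ m ∈ h.support with ¬ m 0 = h.support.sup (fun m => m 0),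
          ‖σ (h.coeff m)‖ * (‖σ x‖ ^ (m 0) * ‖σ y‖ ^ (m 1)) :=
          mul_le_mul_of_nonneg_left h3 hxp.le
      _ = ∑ m ∈ h.support with ¬ m 0 = h.support.sup (fun m => m 0),
          ‖σ (h.coeff m)‖ * (‖σ x‖ ^ (m 0 + 1) * ‖σ y‖ ^ (m 1)) := by
          rw [Finset.mul_sum]
          refine Finset.sum_congr rfl fun m _ => ?_
          ring
      _ ≤ ∑ m ∈ h.support with ¬ m 0 = h.support.sup (fun m => m 0),
          ‖σ (h.coeff m)‖ * (‖σ x‖ ^ (h.support.sup fun m => m 0) *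
            Y ^ (h.support.sup fun m => m 1)) := by
          refine Finset.sum_le_sum fun m hm => ?_
          rw [Finset.mem_filter] at hm
          have h6 : m 0 ≤ h.support.sup (fun m => m 0) :=
            Finset.le_sup (f := fun m : Fin 2 →₀ ℕ => m 0) hm.1
          have h7 : m 1 ≤ h.support.sup (fun m => m 1) :=
            Finset.le_sup (f := fun m : Fin 2 →₀ ℕ => m 1) hm.1
          have h8 : m 0 + 1 ≤ h.support.sup (fun m => m 0) := by
            have := hm.2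
            omega
          refine mul_le_mul_of_nonneg_left ?_ (norm_nonneg _)
          refine mul_le_mul (pow_le_pow_right₀ hx h8) ?_ (by positivity) (by positivity)
          exact (pow_le_pow_left₀ (norm_nonneg _) hy _).trans (pow_le_pow_right₀ hY h7)
      _ ≤ ∑ m ∈ h.support, ‖σ (h.coeff m)‖ * (‖σ x‖ ^ (h.support.sup fun m => m 0) *
            Y ^ (h.support.sup fun m => m 1)) :=
          Finset.sum_le_sum_of_subset_of_nonneg (Finset.filter_subset _ _)
            fun _ _ _ => by positivity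
      _ = _ := by
          rw [← Finset.sum_mul]
          ring
  have h9 : 0 < ‖σ x‖ ^ (h.support.sup fun m => m 0) := by positivity
  refine le_of_mul_le_mul_left ?_ h9
  calc _ = ‖σ x‖ * (‖σ x‖ ^ (h.support.sup fun m => m 0) * ‖σ ((leadY h).eval y)‖) := by ring
    _ ≤ _ := h5

theorem coe_iterate {K : Type*} [Field K] (A : Subring K) (f : A[X]) (F : K[X])
    (hf : f.map A.subtype = F) (x : A) (n : ℕ) :
    (((fun z : A => f.eval z)^[n] x : A) : K) = orb F (x : K) n := by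
  induction n with
  | zero => rfl
  | succ n ih =>
    have h1 : orb F (x : K) (n + 1) = F.eval (orb F (x : K) n) := by
      simp only [orb, Function.iterate_succ_apply']
    rw [h1, ← ih, Function.iterate_succ_apply', ← hf, Polynomial.eval_map]
    exact (Polynomial.eval₂_at_apply A.subtype _).symm

/-- Different degrees: the finiteness of the return set over a ring with enough places. -/
theorem deg_ne_finite_core {A L I : Type*} [CommRing A] [IsDomain A] [NormedField L]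
    [IsUltrametricDist L] [Finite I] (σ : I → A →+* L) (N : ℕ)
    (hinj : ∀ i, Function.Injective (σ i))
    (hfin : ∀ M : ℝ, {u : A | ∀ i, ‖σ i u‖ ≤ M}.Finite)
    (hliou : ∀ u : A, u ≠ 0 → ∀ i, ∀ M : ℝ, 1 ≤ M → (∀ j, ‖σ j u‖ ≤ M) →
      1 ≤ ‖σ i u‖ * M ^ N)
    (f g : A[X]) (hfg : g.natDegree < f.natDegree) (x y : ℕ → A)
    (hx : ∀ n, x (n + 1) = f.eval (x n)) (hy : ∀ n, y (n + 1) = g.eval (y n))
    (hxi : Function.Injective x) (hyi : Function.Injective y)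
    (h : MvPolynomial (Fin 2) A) (h0 : h ≠ 0) :
    {n : ℕ | MvPolynomial.eval ![x n, y n] h = 0}.Finite := by
  classical
  have := Fintype.ofFinite I
  have hg1 : 1 ≤ g.natDegree := by
    by_contra hc
    have hc' : g.natDegree = 0 := by omega
    rw [Polynomial.eq_C_of_natDegree_eq_zero hc'] at hy
    have h1 := hy 0
    have h2 := hy 1
    rw [eval_C] at h1 h2
    have := hyi (h1.trans h2.symm)
    omega
  -- a place where the first orbit is unbounded
  obtain ⟨i₀, hi₀⟩ : ∃ i, ∀ M : ℝ, ∃ n, M < ‖σ i (x n)‖ := by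
    by_contra hc
    push Not at hc
    choose M hM using hc
    have h1 : Set.range x ⊆ {u : A | ∀ i, ‖σ i u‖ ≤ ∑ i, |M i|} := by
      rintro _ ⟨n, rfl⟩ i
      calc ‖σ i (x n)‖ ≤ M i := hM i n
        _ ≤ |M i| := le_abs_self _
        _ ≤ ∑ i, |M i| := Finset.single_le_sum (fun j _ => abs_nonneg (M j)) (Finset.mem_univ i)
    exact (Set.infinite_range_of_injective hxi) ((hfin _).subset h1)
  -- lower growth of the first orbit
  have hfd : (f.map (σ i₀)).natDegree = f.natDegree :=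
    Polynomial.natDegree_map_eq_of_injective (hinj i₀) f
  obtain ⟨n₀, hn₀⟩ := orbit_lower (f.map (σ i₀)) (by omega) (fun n => σ i₀ (x n))
    (fun n => by rw [hx, Polynomial.eval_map, Polynomial.eval₂_at_apply]) hi₀
  rw [hfd] at hn₀
  -- upper growth of the second orbit
  have hup : ∀ i, ∃ B : ℝ, 1 ≤ B ∧ ∀ n, ‖σ i (y n)‖ ≤ B ^ ((n + 1) * g.natDegree ^ n) :=
    fun i => orbit_upper (g.map (σ i)) g.natDegree Polynomial.natDegree_map_le hg1
      (fun n => σ i (y n)) (fun n => by rw [hy, Polynomial.eval_map, Polynomial.eval₂_at_apply])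
  choose B hB1 hB using hup
  obtain ⟨B', hB'1, hB'⟩ : ∃ B' : ℝ, 1 ≤ B' ∧
      ∀ i n, ‖σ i (y n)‖ ≤ B' ^ ((n + 1) * g.natDegree ^ n) := by
    refine ⟨1 + ∑ i, B i, ?_, ?_⟩
    · have : 0 ≤ ∑ i, B i := Finset.sum_nonneg fun i _ => le_trans zero_le_one (hB1 i)
      linarith
    · intro i n
      refine (hB i n).trans (pow_le_pow_left₀ (by linarith [hB1 i]) ?_ _)
      have := Finset.single_le_sum (f := B) (fun j _ => le_trans zero_le_one (hB1 j))
        (Finset.mem_univ i)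
      linarith
  -- the constants
  obtain ⟨E, hE⟩ : ∃ E : ℕ, E = h.support.sup fun m => m 1 := ⟨_, rfl⟩
  obtain ⟨C₁, hC₁, hC₂⟩ : ∃ C₁ : ℝ, 1 ≤ C₁ ∧ ∀ i, ∑ m ∈ h.support, ‖σ i (h.coeff m)‖ ≤ C₁ := by
    refine ⟨1 + ∑ i, ∑ m ∈ h.support, ‖σ i (h.coeff m)‖, ?_, ?_⟩
    · have : 0 ≤ ∑ i, ∑ m ∈ h.support, ‖σ i (h.coeff m)‖ :=
        Finset.sum_nonneg fun i _ => Finset.sum_nonneg fun m _ => norm_nonneg _
      linarith
    · intro i
      have := Finset.single_le_sum (f := fun i => ∑ m ∈ h.support, ‖σ i (h.coeff m)‖)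
        (fun j _ => Finset.sum_nonneg fun m _ => norm_nonneg _) (Finset.mem_univ i)
      linarith
  have hB2 : (1 : ℝ) ≤ (C₁ * B' ^ E) ^ (N + 1) := by
    apply one_le_pow₀
    have := mul_le_mul hC₁ (one_le_pow₀ hB'1 (n := E)) (by norm_num) (by linarith)
    linarith
  obtain ⟨κ, hκ⟩ := pow_unbounded_of_one_lt ((C₁ * B' ^ E) ^ (N + 1)) (one_lt_two (α := ℝ))
  obtain ⟨k₀, hk₀⟩ := growth_compare f.natDegree g.natDegree hfg hg1 (κ : ℝ) n₀
  have hsub : {n : ℕ | MvPolynomial.eval ![x n, y n] h = 0} ⊆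
      Set.Iio (n₀ + k₀) ∪ y ⁻¹' {u : A | (leadY h).IsRoot u} := by
    intro n hn
    by_contra hcon
    rw [Set.mem_union, not_or] at hcon
    obtain ⟨hc1, hc2⟩ := hcon
    rw [Set.mem_Iio, not_lt] at hc1
    have hroot : (leadY h).eval (y n) ≠ 0 := hc2
    obtain ⟨k, rfl⟩ : ∃ k, n = n₀ + k := ⟨n - n₀, by omega⟩
    have hk : k₀ ≤ k := by omega
    have hY1 : (1 : ℝ) ≤ B' ^ ((n₀ + k + 1) * g.natDegree ^ (n₀ + k)) := one_le_pow₀ hB'1
    have hX2 : (2 : ℝ) ^ f.natDegree ^ k ≤ ‖σ i₀ (x (n₀ + k))‖ := hn₀ k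
    have hX1 : 1 ≤ ‖σ i₀ (x (n₀ + k))‖ :=
      le_trans (one_le_pow₀ (by norm_num)) hX2
    obtain ⟨Q, hQ⟩ : ∃ Q : ℕ, Q = (n₀ + k + 1) * g.natDegree ^ (n₀ + k) := ⟨_, rfl⟩
    rw [← hQ] at hY1
    have hQ1 : 1 ≤ Q := by
      rw [hQ]
      exact Nat.mul_pos (by omega) (Nat.pos_of_ne_zero (pow_ne_zero _ (by omega)))
    have hMle : ∀ i, (∑ m ∈ h.support, ‖σ i (h.coeff m)‖) * (B' ^ Q) ^ E ≤
        C₁ * (B' ^ Q) ^ E := fun i => mul_le_mul_of_nonneg_right (hC₂ i) (by positivity)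
    have hM1 : 1 ≤ C₁ * (B' ^ Q) ^ E := by
      have := mul_le_mul hC₁ (one_le_pow₀ hY1 (n := E)) (by norm_num) (by linarith)
      linarith
    have hL := hliou _ hroot i₀ (C₁ * (B' ^ Q) ^ E) hM1 (fun j => by
      have h1 := norm_leadY_le (σ j) h (y (n₀ + k)) (B' ^ Q) hY1 (by rw [hQ]; exact hB' j _)
      rw [← hE] at h1
      exact h1.trans (hMle j))
    have hZ := norm_leadY_le_of_zero (σ i₀) h (x (n₀ + k)) (y (n₀ + k)) (B' ^ Q) hY1
      (by rw [hQ]; exact hB' i₀ _) hX1 hn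
    rw [← hE] at hZ
    have hZ' := hZ.trans (hMle i₀)
    have hfinal : ‖σ i₀ (x (n₀ + k))‖ ≤ (C₁ * (B' ^ Q) ^ E) ^ (N + 1) := by
      calc ‖σ i₀ (x (n₀ + k))‖ = ‖σ i₀ (x (n₀ + k))‖ * 1 := (mul_one _).symm
        _ ≤ ‖σ i₀ (x (n₀ + k))‖ * (‖σ i₀ ((leadY h).eval (y (n₀ + k)))‖ *
            (C₁ * (B' ^ Q) ^ E) ^ N) := mul_le_mul_of_nonneg_left hL (by linarith)
        _ = (‖σ i₀ (x (n₀ + k))‖ * ‖σ i₀ ((leadY h).eval (y (n₀ + k)))‖) *
            (C₁ * (B' ^ Q) ^ E) ^ N := by ring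
        _ ≤ (C₁ * (B' ^ Q) ^ E) * (C₁ * (B' ^ Q) ^ E) ^ N :=
            mul_le_mul_of_nonneg_right hZ' (by positivity)
        _ = _ := by rw [pow_succ']
    have hle2 : (C₁ * (B' ^ Q) ^ E) ^ (N + 1) ≤ ((2 : ℝ) ^ κ) ^ Q := by
      calc (C₁ * (B' ^ Q) ^ E) ^ (N + 1) ≤ (C₁ ^ Q * (B' ^ Q) ^ E) ^ (N + 1) := by
            refine pow_le_pow_left₀ (by positivity) ?_ _
            exact mul_le_mul_of_nonneg_right (le_self_pow₀ hC₁ (by omega)) (by positivity)
        _ = ((C₁ * B' ^ E) ^ (N + 1)) ^ Q := by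
            rw [← pow_mul B' Q E, mul_comm Q E, pow_mul B' E Q, ← mul_pow, ← pow_mul, ← pow_mul,
              mul_comm Q (N + 1)]
        _ ≤ ((2 : ℝ) ^ κ) ^ Q := pow_le_pow_left₀ (by linarith) hκ.le _
    have h2 : (2 : ℝ) ^ f.natDegree ^ k ≤ (2 : ℝ) ^ (κ * Q) := by
      rw [pow_mul]
      exact hX2.trans (hfinal.trans hle2)
    have h3 : f.natDegree ^ k ≤ κ * Q := (pow_le_pow_iff_right₀ (by norm_num)).1 h2
    have h4 := hk₀ k hk
    have h5 : ((f.natDegree : ℝ)) ^ k ≤ (κ : ℝ) * ((n₀ + k + 1) *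
        (g.natDegree : ℝ) ^ (n₀ + k)) := by
      have : ((f.natDegree ^ k : ℕ) : ℝ) ≤ ((κ * Q : ℕ) : ℝ) := by exact_mod_cast h3
      rw [hQ] at this
      push_cast at this
      exact this
    linarith
  refine Set.Finite.subset ((Set.finite_Iio _).union ?_) hsub
  refine Set.Finite.preimage hyi.injOn ?_
  exact ((leadY h).roots.toFinset.finite_toSet).subset fun u hu => by
    simp only [Finset.mem_coe, Multiset.mem_toFinset]
    exact (Polynomial.mem_roots (leadY_ne_zero h0)).2 hu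

/-- Different degrees, from a subring with enough places. -/
theorem deg_ne_finite_of_places {K L I : Type*} [Field K] [NormedField L] [IsUltrametricDist L]
    [Finite I] (A : Subring K) (σ : I → A →+* L) (N : ℕ) (hinj : ∀ i, Function.Injective (σ i))
    (hfin : ∀ M : ℝ, {u : A | ∀ i, ‖σ i u‖ ≤ M}.Finite)
    (hliou : ∀ u : A, u ≠ 0 → ∀ i, ∀ M : ℝ, 1 ≤ M → (∀ j, ‖σ j u‖ ≤ M) →
      1 ≤ ‖σ i u‖ * M ^ N)
    (f g : K[X]) (hfg : g.natDegree < f.natDegree) (x y : K) (h : MvPolynomial (Fin 2) K)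
    (h0 : h ≠ 0) (hB : (↑f.coeffs ∪ ↑g.coeffs ∪ ↑h.coeffs ∪ {x, y} : Set K) ⊆ A)
    (hx : ¬ (Set.range (orb f x)).Finite) (hy : ¬ (Set.range (orb g y)).Finite) :
    (ret f g x y h).Finite := by
  have hfB : (↑f.coeffs : Set K) ⊆ A := fun z hz => hB (by simp [hz])
  have hgB : (↑g.coeffs : Set K) ⊆ A := fun z hz => hB (by simp [hz])
  have hhB : (↑h.coeffs : Set K) ⊆ A := fun z hz => hB (by simp [hz])
  have hxA : x ∈ A := hB (by simp)
  have hyA : y ∈ A := hB (by simp)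
  obtain ⟨f', hf'⟩ : ∃ f' : A[X], f'.map A.subtype = f := by
    refine (Polynomial.mem_lifts f).1 ((Polynomial.lifts_iff_coeff_lifts f).2 fun n => ?_)
    by_cases hc : f.coeff n = 0
    · exact ⟨0, by rw [map_zero, hc]⟩
    · exact ⟨⟨f.coeff n, hfB (Polynomial.coeff_mem_coeffs hc)⟩, rfl⟩
  obtain ⟨g', hg'⟩ : ∃ g' : A[X], g'.map A.subtype = g := by
    refine (Polynomial.mem_lifts g).1 ((Polynomial.lifts_iff_coeff_lifts g).2 fun n => ?_)
    by_cases hc : g.coeff n = 0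
    · exact ⟨0, by rw [map_zero, hc]⟩
    · exact ⟨⟨g.coeff n, hgB (Polynomial.coeff_mem_coeffs hc)⟩, rfl⟩
  obtain ⟨h', hh'⟩ : ∃ h' : MvPolynomial (Fin 2) A, MvPolynomial.map A.subtype h' = h := by
    refine MvPolynomial.mem_range_map_iff_coeffs_subset.2 ?_
    intro z hz
    exact ⟨⟨z, hhB hz⟩, rfl⟩
  have hinjA : Function.Injective A.subtype := Subtype.val_injective
  have ex : ∀ n, (((fun z : A => f'.eval z)^[n] ⟨x, hxA⟩ : A) : K) = orb f x n :=
    fun n => coe_iterate A f' f hf' ⟨x, hxA⟩ n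
  have ey : ∀ n, (((fun z : A => g'.eval z)^[n] ⟨y, hyA⟩ : A) : K) = orb g y n :=
    fun n => coe_iterate A g' g hg' ⟨y, hyA⟩ n
  have rx : ¬ (Set.range fun n : ℕ => (fun z : A => f'.eval z)^[n] ⟨x, hxA⟩).Finite := by
    intro hf
    apply hx
    refine (hf.image (fun a : A => (a : K))).subset ?_
    rintro _ ⟨n, rfl⟩
    exact ⟨_, ⟨n, rfl⟩, ex n⟩
  have ry : ¬ (Set.range fun n : ℕ => (fun z : A => g'.eval z)^[n] ⟨y, hyA⟩).Finite := by
    intro hf
    apply hy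
    refine (hf.image (fun a : A => (a : K))).subset ?_
    rintro _ ⟨n, rfl⟩
    exact ⟨_, ⟨n, rfl⟩, ey n⟩
  have hdf : f'.natDegree = f.natDegree := by
    rw [← hf', Polynomial.natDegree_map_eq_of_injective hinjA]
  have hdg : g'.natDegree = g.natDegree := by
    rw [← hg', Polynomial.natDegree_map_eq_of_injective hinjA]
  have h0' : h' ≠ 0 := by
    rintro rfl
    apply h0
    rw [← hh', map_zero]
  have key := deg_ne_finite_core σ N hinj hfin hliou f' g' (by rw [hdf, hdg]; exact hfg)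
    (fun n : ℕ => (fun z : A => f'.eval z)^[n] ⟨x, hxA⟩)
    (fun n : ℕ => (fun z : A => g'.eval z)^[n] ⟨y, hyA⟩)
    (fun n => Function.iterate_succ_apply' _ _ _) (fun n => Function.iterate_succ_apply' _ _ _)
    (iter_injective _ _ rx) (iter_injective _ _ ry) h' h0'
  refine key.subset fun n hn => ?_
  change MvPolynomial.eval ![orb f x n, orb g y n] h = 0 at hn
  change MvPolynomial.eval _ h' = 0
  apply hinjA
  rw [map_zero, ← hn, ← hh', MvPolynomial.eval_map, ← ex n, ← ey n,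
    ← MvPolynomial.eval₂_id, MvPolynomial.eval₂_comp_left]
  congr 1
  funext i
  fin_cases i <;> rfl

end Pool.Agent.Helper79.DM
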